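import Pool.Agent.Helper69.LT.St
import Pool.Agent.Helper84.LE.M_Lev
import Pool.Agent.Helper84.LE.M_ATT

/-! LT module LevD: attaching `s'` and `y`, before taking expectations. -/

set_option autoImplicit false

open scoped BigOperators ENNReal
open Pool.LE Pool.NL

namespace Pool.LT

section LevDM

theorem LevDM.pts_ins {V : Type} (z : V) (L : List (V × List V × V)) :
    ∀ L' : List (V × List V × V), L' ∈ ins z L → ∀ x ∈ pts L, x ∈ pts L' := by
  induction L with
  | nil => intro L' h; simp [ins] at h
  | cons c L ih =>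
    intro L' h x hx
    simp only [ins, List.mem_cons, List.mem_map] at h
    rcases h with rfl | ⟨L'', hL'', rfl⟩
    · simp only [pts, List.flatMap_cons, List.mem_append, List.mem_cons] at hx ⊢
      rcases hx with (hx | hx | hx) | hx
      · exact Or.inl (Or.inl hx)
      · exact Or.inl (Or.inr (Or.inl hx))
      · exact Or.inl (Or.inr (Or.inr (Or.inr hx)))
      · exact Or.inr hx
    · simp only [pts, List.flatMap_cons, List.mem_append] at hx ⊢
      rcases hx with hx | hx
      · exact Or.inl hx
      · exact Or.inr (ih L'' hL'' x hx)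

end LevDM

theorem hLevD : SBase → SLevD := by
  classical
  intro hBase V _ L k lam ω v u t s s' hB hc
  obtain ⟨w', hD⟩ := hBase V ω v u t s hB
  obtain ⟨w, L', hL', hD2⟩ := hATT hWIT V ω _ v s' hD (by simp [pts]) hc
  have hv : v ∈ pts ((w, [], s') :: L') := by
    have h2 : v ∈ pts L' := LevDM.pts_ins w _ L' hL' v (by simp [pts])
    simp only [pts, List.flatMap_cons, List.mem_append] at h2 ⊢
    exact Or.inr h2
  refine le_trans ?_ (ENNReal.le_tsum w')
  refine le_trans ?_ (ENNReal.le_tsum w)
  refine le_trans ?_ (lev_le_sum hL' _)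
  rw [if_pos hD2]
  refine add_le_add le_rfl ?_
  refine mul_le_mul_right ?_ _
  unfold kap
  rw [Finset.sum_filter]
  refine Finset.sum_le_sum fun y _ => ?_
  by_cases hcy : con ω v y
  swap
  · rw [if_neg hcy]; exact zero_le
  rw [if_pos hcy]
  obtain ⟨z, L'', hL'', hD3⟩ := hATT hWIT V ω _ v y hD2 hv hcy
  have h1 : (1 : ENNReal) ≤ ∑' z : V, ((ins z ((w, [], s') :: L')).map (fun L'' =>
      if DR ((z, [], y) :: L'') ω then (1 : ENNReal) else 0)).sum := by
    refine le_trans ?_ (ENNReal.le_tsum z)
    refine le_trans ?_ (lev_le_sum hL'' _)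
    rw [if_pos hD3]
  calc ENNReal.ofReal |k y| = ENNReal.ofReal |k y| * 1 := (mul_one _).symm
    _ ≤ _ := mul_le_mul_right h1 _

end Pool.LT

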