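import Pool.Agent.Helper49.LT.StA

/-!
# Project LT (MP_b21509_co), module POL: moments in polar coordinates
-/

open MeasureTheory Set Filter Metric

namespace Pool.Agent.Helper29.LT

open Helper49.LT Helper97.CB

/-- the integrand in polar coordinates, as a function of `(φ, r)` -/
private noncomputable def GG (K : Set ℂ) (j : ℕ) (p : ℝ × ℝ) : ℂ :=
  (p.2 : ℂ) * K.indicator (fun z => z ^ j) ((p.2 : ℂ) * ee p.1)

private theorem gg_int {K : Set ℂ} (j : ℕ) (hm : MeasurableSet K) (hb : Bornology.IsBounded K) :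
    IntegrableOn (GG K j) (Ioo (-Real.pi) Real.pi ×ˢ Ioi (0 : ℝ)) (volume.prod volume) := by
  obtain ⟨R, hR⟩ := hb.exists_norm_le
  have hmeas : Measurable (GG K j) := by
    unfold GG
    have h1 : Measurable (K.indicator (fun z : ℂ => z ^ j)) :=
      (measurable_id.pow_const j).indicator hm
    have h2 : Continuous (fun p : ℝ × ℝ => (p.2 : ℂ) * ee p.1) := by
      have := continuous_ee
      fun_prop
    have h3 : Measurable (fun p : ℝ × ℝ => (p.2 : ℂ)) := by fun_prop
    exact h3.mul (h1.comp h2.measurable)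
  have h1 : IntegrableOn (GG K j) (Ioo (-Real.pi) Real.pi ×ˢ Ioc (0 : ℝ) R)
      (volume.prod volume) := by
    apply Measure.integrableOn_of_bounded (M := |R| * |R| ^ j)
    · rw [Measure.prod_prod]
      exact ENNReal.mul_ne_top (by simp) (by simp)
    · exact hmeas.aestronglyMeasurable
    · filter_upwards with p
      unfold GG
      by_cases hp : (p.2 : ℂ) * ee p.1 ∈ K
      · rw [indicator_of_mem hp]
        have h2 := hR _ hp
        have h3 : ‖(p.2 : ℂ)‖ ≤ |R| := by
          rw [norm_mul, norm_ee, mul_one] at h2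
          exact h2.trans (le_abs_self _)
        rw [norm_mul, norm_pow]
        have h4 : ‖(p.2 : ℂ) * ee p.1‖ ≤ |R| := h2.trans (le_abs_self _)
        gcongr
      · rw [indicator_of_notMem hp, mul_zero, norm_zero]
        positivity
  refine h1.of_forall_sdiff_eq_zero (measurableSet_Ioo.prod measurableSet_Ioi) ?_
  rintro ⟨φ, r⟩ ⟨⟨h2, h3⟩, h4⟩
  unfold GG
  rw [indicator_of_notMem, mul_zero]
  intro h5
  apply h4
  refine ⟨h2, h3, ?_⟩
  have h6 := hR _ h5
  rw [norm_mul, norm_ee, mul_one, Complex.norm_real, Real.norm_eq_abs] at h6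
  exact (le_abs_self _).trans h6

private theorem inner_int {K : Set ℂ} (j : ℕ) (hconv : Convex ℝ K) (hc : IsClosed K)
    (h0 : K ∈ nhds (0 : ℂ)) (φ : ℝ) (hg : 0 < gauge K (ee φ)) :
    ∫ r in Ioi (0 : ℝ), GG K j (φ, r) =
      (1 / ((j : ℂ) + 2)) * ((((gauge K (ee φ))⁻¹ ^ (j + 2) : ℝ) : ℂ) * ee φ ^ j) := by
  have hmem : ∀ r : ℝ, 0 < r → ((r : ℂ) * ee φ ∈ K ↔ r ≤ (gauge K (ee φ))⁻¹) := by
    intro r hr
    have h1 : gauge K ((r : ℂ) * ee φ) = r * gauge K (ee φ) := by
      have h2 := gauge_smul_of_nonneg (s := K) hr.le (ee φ)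
      rw [← Complex.real_smul, h2, smul_eq_mul]
    have h3 := gauge_le_one_iff_mem_closure (x := (r : ℂ) * ee φ) hconv h0
    rw [hc.closure_eq, h1] at h3
    rw [← h3, ← one_div, le_div_iff₀ hg]
  have e1 : ∫ r in Ioi (0 : ℝ), GG K j (φ, r) =
      ∫ r in Ioi (0 : ℝ), (Iic (gauge K (ee φ))⁻¹).indicator
        (fun r : ℝ => ((r ^ (j + 1) : ℝ) : ℂ) * ee φ ^ j) r := by
    apply setIntegral_congr_fun measurableSet_Ioi
    intro r hr
    have hr' : (0 : ℝ) < r := hr
    show (r : ℂ) * K.indicator (fun z => z ^ j) ((r : ℂ) * ee φ) = _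
    by_cases h : r ≤ (gauge K (ee φ))⁻¹
    · rw [indicator_of_mem ((hmem r hr').2 h), indicator_of_mem (show r ∈ Iic _ from h)]
      push_cast
      ring
    · rw [indicator_of_notMem (fun h' => h ((hmem r hr').1 h')),
        indicator_of_notMem (show r ∉ Iic _ from h), mul_zero]
  rw [e1, setIntegral_indicator measurableSet_Iic, Ioi_inter_Iic,
    ← intervalIntegral.integral_of_le (inv_pos.2 hg).le, intervalIntegral.integral_mul_const,
    intervalIntegral.integral_ofReal, integral_pow]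
  push_cast
  have h2 : ((j : ℂ) + 1 + 1) = (j : ℂ) + 2 := by ring
  rw [h2]
  simp only [ne_eq, Nat.add_eq_zero_iff, one_ne_zero, and_false, not_false_eq_true, zero_pow,
    sub_zero]
  ring

theorem hPOL : StPol := by
  intro K j hK hb
  obtain ⟨hconv, hcomp, -⟩ := hK
  have h0 : K ∈ nhds (0 : ℂ) := Filter.mem_of_superset (closedBall_mem_nhds 0 (by norm_num)) hb
  have hclosed : IsClosed K := hcomp.isClosed
  have hmeas : MeasurableSet K := hclosed.measurableSet
  have habs : Absorbent ℝ K := absorbent_nhds_zero h0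
  have hbdd : Bornology.IsBounded K := hcomp.isBounded
  have hvn : Bornology.IsVonNBounded ℝ K := NormedSpace.isVonNBounded_of_isBounded ℝ hbdd
  have hgpos : ∀ φ, 0 < gauge K (ee φ) := fun φ => (gauge_pos habs hvn).2 (ee_ne φ)
  have e1 : ∫ z in K, z ^ j = ∫ p in Ioi (0 : ℝ) ×ˢ Ioo (-Real.pi) Real.pi, GG K j p.swap := by
    have ht : polarCoord.target = Ioi (0 : ℝ) ×ˢ Ioo (-Real.pi) Real.pi := rfl
    rw [← integral_indicator hmeas, ← Complex.integral_comp_polarCoord_symm, ht]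
    apply setIntegral_congr_fun (measurableSet_Ioi.prod measurableSet_Ioo)
    intro p _
    show p.1 • K.indicator (fun z => z ^ j) (Complex.polarCoord.symm p) = GG K j p.swap
    unfold GG
    rw [Complex.polarCoord_symm_apply, Complex.real_smul]
    show _ = ((p.1 : ℝ) : ℂ) * K.indicator (fun z => z ^ j) (((p.1 : ℝ) : ℂ) * ee p.2)
    rw [ee_eq]
  have e2 : ∫ p in Ioi (0 : ℝ) ×ˢ Ioo (-Real.pi) Real.pi, GG K j p.swap =
      ∫ φ in Ioo (-Real.pi) Real.pi, ∫ r in Ioi (0 : ℝ), GG K j (φ, r) := by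
    rw [Measure.volume_eq_prod, setIntegral_prod_swap, setIntegral_prod _ (gg_int j hmeas hbdd)]
  have e3 : ∫ φ in Ioo (-Real.pi) Real.pi, ∫ r in Ioi (0 : ℝ), GG K j (φ, r) =
      ∫ φ in Ioo (-Real.pi) Real.pi, (1 / ((j : ℂ) + 2)) *
        ((((gauge K (ee φ))⁻¹ ^ (j + 2) : ℝ) : ℂ) * ee φ ^ j) := by
    apply setIntegral_congr_fun measurableSet_Ioo
    intro φ _
    exact inner_int j hconv hclosed h0 φ (hgpos φ)
  have hpi : -Real.pi ≤ Real.pi := by linarith [Real.pi_pos]
  rw [e1, e2, e3, ← integral_Ioc_eq_integral_Ioo, ← intervalIntegral.integral_of_le hpi,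
    intervalIntegral.integral_const_mul]
  congr 1
  have hper : Function.Periodic
      (fun φ : ℝ => (((gauge K (ee φ))⁻¹ ^ (j + 2) : ℝ) : ℂ) * ee φ ^ j) (2 * Real.pi) := by
    intro φ
    show (((gauge K (ee (φ + 2 * Real.pi)))⁻¹ ^ (j + 2) : ℝ) : ℂ) * ee (φ + 2 * Real.pi) ^ j = _
    rw [ee_per]
  have h := hper.intervalIntegral_add_eq (-Real.pi) 0
  have h2 : -Real.pi + 2 * Real.pi = Real.pi := by ring
  rw [h2, zero_add] at h
  exact h

end Pool.Agent.Helper29.LT
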