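import Pool.Agent.Helper51.LT.St2

/-!
# Project LT (MP_d6acc2_an), module WEJ: the weighted inequality with `j` equal weights

Adapted from `Pool.Agent.Helper60.Rel.Weights`.
-/

set_option autoImplicit false

namespace Pool.Agent.Helper29.LT

open Finset Pool.Agent.Helper51.LT

private theorem Gj_zero (r : ℝ) (j : ℕ) : Gj r j 0 = 0 := by
  unfold Gj
  rw [if_pos (Nat.zero_le j), Nat.cast_zero]

private theorem Gj_le (r : ℝ) {j k : ℕ} (h : k ≤ j) : Gj r j k = k := by
  unfold Gj
  rw [if_pos h]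

private theorem Gj_ge (r : ℝ) {j k : ℕ} (h : j ≤ k) : Gj r j k = (j : ℝ) * r ^ (k - j) := by
  unfold Gj
  split_ifs with h1
  · have : k = j := le_antisymm h1 h
    subst this
    simp
  · rfl

private theorem Gj_succ (r : ℝ) {j k : ℕ} (h : j ≤ k) : Gj r j (k + 1) = r * Gj r j k := by
  rw [Gj_ge r h, Gj_ge r (h.trans (Nat.le_succ k)), Nat.succ_sub h, pow_succ]
  ring

private theorem Gj_mono {r : ℝ} (hr : 1 ≤ r) (j k : ℕ) : Gj r j k ≤ Gj r j (k + 1) ∧ 0 ≤ Gj r j k := by
  rcases Nat.lt_or_ge k j with h | h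
  · rw [Gj_le r h.le, Gj_le r (Nat.succ_le_of_lt h)]
    push_cast
    exact ⟨by linarith, by positivity⟩
  · have h0 : 0 ≤ Gj r j k := by
      rw [Gj_ge r h]; positivity
    rw [Gj_succ r h]
    exact ⟨by nlinarith, h0⟩

private theorem gj_nonneg {r : ℝ} (hr : 1 ≤ r) (j k : ℕ) : 0 ≤ gj r j k := by
  have := (Gj_mono hr j k).1
  unfold gj; linarith

private theorem sum_gj (r : ℝ) (j M : ℕ) : ∑ k ∈ range M, gj r j k = Gj r j M := by
  induction M with
  | zero => simp [Gj_zero]
  | succ M ih => rw [sum_range_succ, ih]; unfold gj; ring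

/-- Abel summation of the minimum. -/
private theorem sum_min (r : ℝ) (j M : ℕ) (U : ℕ → ℝ) (hU : ∀ a b, a ≤ b → b < M → U b ≤ U a) :
    ∑ a ∈ range M, ∑ b ∈ range M, gj r j a * gj r j b * min (U a) (U b)
      = ∑ a ∈ range M, (Gj r j (a + 1) ^ 2 - Gj r j a ^ 2) * U a := by
  induction M with
  | zero => simp
  | succ M ih =>
    have hU' : ∀ a b, a ≤ b → b < M → U b ≤ U a := fun a b hab hb => hU a b hab (by omega)
    rw [sum_range_succ, sum_range_succ (fun a => (Gj r j (a + 1) ^ 2 - Gj r j a ^ 2) * U a),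
      ← ih hU']
    have h1 : ∑ a ∈ range M, ∑ b ∈ range (M + 1), gj r j a * gj r j b * min (U a) (U b)
        = ∑ a ∈ range M, ∑ b ∈ range M, gj r j a * gj r j b * min (U a) (U b)
          + ∑ a ∈ range M, gj r j a * (gj r j M * U M) := by
      rw [← sum_add_distrib]
      apply sum_congr rfl
      intro a ha
      rw [sum_range_succ, min_eq_right (hU a M (mem_range.1 ha).le (by omega))]
      ring
    have h2 : ∑ b ∈ range (M + 1), gj r j M * gj r j b * min (U M) (U b)
        = ∑ b ∈ range M, gj r j b * (gj r j M * U M) + gj r j M ^ 2 * U M := by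
      rw [sum_range_succ, min_self]
      congr 1
      · apply sum_congr rfl
        intro b hb
        rw [min_eq_left (hU b M (mem_range.1 hb).le (by omega))]
        ring
      · ring
    rw [h1, h2, ← sum_mul, sum_gj]
    unfold gj
    ring

private theorem sum_odd (δ : ℝ) (j : ℕ) : ∑ a ∈ range j, (2 - δ * (2 * (a : ℝ) + 1)) = 2 * j - δ * (j : ℝ) ^ 2 := by
  induction j with
  | zero => simp
  | succ j ih => rw [sum_range_succ, ih]; push_cast; ring

/-- WEJ. -/
theorem hWej : StWej := by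
  intro M j δ hj hjM hδ0 hjδ hδ2 U X D hUa hDs hD Λ e C₀ hΛ hX hU hE
  set r : ℝ := (2 + δ) / (2 - δ) with hr
  have h2δ : 0 < 2 - δ := by linarith
  have hr1 : 1 ≤ r := by rw [hr, le_div_iff₀ h2δ]; linarith
  have hj0 : (0 : ℝ) < j := by exact_mod_cast hj
  set w : ℕ → ℝ := fun i => Gj r j (i + 1) ^ 2 - Gj r j i ^ 2 with hw
  have hwe : ∀ i, w i = gj r j i * (2 * Gj r j i + gj r j i) := by
    intro i; rw [hw]; unfold gj; ring
  have hg0 : ∀ i, 0 ≤ gj r j i := gj_nonneg hr1 j
  have hG0 : ∀ i, 0 ≤ Gj r j i := fun i => (Gj_mono hr1 j i).2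
  have hw0 : ∀ i, 0 ≤ w i := by
    intro i
    rw [hwe]
    exact mul_nonneg (hg0 i) (by linarith [hg0 i, hG0 i])
  have hwsum : ∑ i ∈ range M, w i = Gj r j M ^ 2 := by
    rw [hw]
    rw [sum_range_sub (fun i => Gj r j i ^ 2)]
    simp [Gj_zero]
  rw [sum_min r j M U hUa, sum_gj] at hE
  -- lower bound of the left side
  have h1 : ∑ i ∈ range M, w i * (e + δ * X i + ∑ a ∈ (range M).erase i, D i a)
      ≤ ∑ i ∈ range M, w i * U i :=
    sum_le_sum (fun i hj => mul_le_mul_of_nonneg_left (hU i (mem_range.1 hj)) (hw0 i))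
  have h2 := le_trans h1 hE
  have h3 : ∑ i ∈ range M, w i * (e + δ * X i + ∑ a ∈ (range M).erase i, D i a)
      = e * Gj r j M ^ 2 + δ * ∑ i ∈ range M, w i * X i
        + ∑ i ∈ range M, ∑ a ∈ (range M).erase i, w i * D i a := by
    have : ∀ i, w i * (e + δ * X i + ∑ a ∈ (range M).erase i, D i a)
        = e * w i + δ * (w i * X i) + ∑ a ∈ (range M).erase i, w i * D i a := by
      intro i; rw [mul_add, mul_add, mul_sum]; ring
    rw [sum_congr rfl (fun i _ => this i), sum_add_distrib, sum_add_distrib, ← mul_sum,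
      ← mul_sum, hwsum]
  rw [h3] at h2
  -- the D terms
  have hDterm : ∑ i ∈ range M, ∑ a ∈ (range M).erase i, 2 * (gj r j i * gj r j a * D i a)
      - ∑ i ∈ range M, ∑ a ∈ (range M).erase i, w i * D i a ≤ M * Gj r j M ^ 2 := by
    have hsw : ∀ F : ℕ → ℕ → ℝ, ∑ i ∈ range M, ∑ a ∈ (range M).erase i, F i a
        = ∑ i ∈ range M, ∑ a ∈ (range M).erase i, F a i := by
      intro F
      apply sum_comm'
      intro x y
      simp only [mem_erase, mem_range]
      constructor
      · rintro ⟨h1, h2, h3⟩; exact ⟨⟨Ne.symm h2, h1⟩, h3⟩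
      · rintro ⟨⟨h1, h2⟩, h3⟩; exact ⟨h2, Ne.symm h1, h3⟩
    rw [← sum_sub_distrib]
    have e1 : ∀ i, ∑ a ∈ (range M).erase i, 2 * (gj r j i * gj r j a * D i a)
        - ∑ a ∈ (range M).erase i, w i * D i a
        = ∑ a ∈ (range M).erase i, (2 * (gj r j i * gj r j a) - w i) * D i a := by
      intro i
      rw [← sum_sub_distrib]
      apply sum_congr rfl
      intro a _; ring
    rw [sum_congr rfl (fun i _ => e1 i)]
    have e2 := hsw (fun i a => (2 * (gj r j i * gj r j a) - w i) * D i a)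
    have e3 : ∑ i ∈ range M, ∑ a ∈ (range M).erase i, (2 * (gj r j i * gj r j a) - w i) * D i a
        = (1 / 2) * ∑ i ∈ range M, ∑ a ∈ (range M).erase i,
          (4 * (gj r j i * gj r j a) - w i - w a) * D i a := by
      have e4 : ∑ i ∈ range M, ∑ a ∈ (range M).erase i,
          (4 * (gj r j i * gj r j a) - w i - w a) * D i a
          = ∑ i ∈ range M, ∑ a ∈ (range M).erase i, (2 * (gj r j i * gj r j a) - w i) * D i a
          + ∑ i ∈ range M, ∑ a ∈ (range M).erase i, (2 * (gj r j a * gj r j i) - w a) * D a i := by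
        rw [← sum_add_distrib]
        apply sum_congr rfl
        intro i _
        rw [← sum_add_distrib]
        apply sum_congr rfl
        intro a _
        rw [hDs a i]; ring
      rw [e4, ← e2]; ring
    rw [e3]
    have e5 : ∀ i a, i < a → 4 * (gj r j i * gj r j a) - w i - w a ≤ 0 := by
      intro i a hia
      rw [hwe i, hwe a]
      have a1 : gj r j i ≤ Gj r j a := by
        have b1 : Gj r j (i + 1) ≤ Gj r j a := by
          exact monotone_nat_of_le_succ (fun k => (Gj_mono hr1 j k).1) hia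
        have b2 := hG0 i
        have b3 : gj r j i = Gj r j (i + 1) - Gj r j i := rfl
        linarith
      have b4 := hg0 i
      have b5 := hg0 a
      have b6 := hG0 i
      nlinarith [sq_nonneg (gj r j i - gj r j a), mul_nonneg b5 (sub_nonneg.2 a1), mul_nonneg b4 b6]
    have e6 : ∀ i a, a ≠ i → (4 * (gj r j i * gj r j a) - w i - w a) * D i a ≤ w i + w a := by
      intro i a hia
      have hneg : 4 * (gj r j i * gj r j a) - w i - w a ≤ 0 := by
        rcases lt_or_gt_of_ne hia with h | h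
        · have := e5 a i h
          linarith
        · exact e5 i a h
      have h5 := hD i a
      have h6 : 0 ≤ gj r j i * gj r j a := mul_nonneg (hg0 i) (hg0 a)
      nlinarith
    calc (1 / 2) * ∑ i ∈ range M, ∑ a ∈ (range M).erase i,
          (4 * (gj r j i * gj r j a) - w i - w a) * D i a
        ≤ (1 / 2) * ∑ i ∈ range M, ∑ a ∈ range M, (w i + w a) := by
          apply mul_le_mul_of_nonneg_left _ (by norm_num)
          apply sum_le_sum
          intro i _
          refine le_trans (sum_le_sum (fun a ha => e6 i a (mem_erase.1 ha).1)) ?_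
          apply sum_le_sum_of_subset_of_nonneg (erase_subset _ _)
          intro a _ _
          linarith [hw0 i, hw0 a]
      _ = M * Gj r j M ^ 2 := by
          have : ∀ i, ∑ a ∈ range M, (w i + w a) = M * w i + Gj r j M ^ 2 := by
            intro i
            rw [sum_add_distrib, hwsum, sum_const, card_range, nsmul_eq_mul]
          rw [sum_congr rfl (fun i _ => this i), sum_add_distrib, ← mul_sum, hwsum, sum_const,
            card_range, nsmul_eq_mul]
          ring
  -- the X terms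
  have hXterm : ∑ i ∈ range M, (2 * gj r j i ^ 2 - δ * w i) * X i ≤ (2 * j - δ * (j : ℝ) ^ 2) * Λ := by
    have e1 : ∀ i, j ≤ i → 2 * gj r j i ^ 2 - δ * w i = 0 := by
      intro i hi
      have a1 : gj r j i = (r - 1) * Gj r j i := by
        unfold gj; rw [Gj_succ r hi]; ring
      rw [hwe, a1]
      have a2 : r - 1 = 2 * δ / (2 - δ) := by rw [hr]; field_simp; ring
      rw [a2]
      field_simp
      ring
    obtain ⟨m, rfl⟩ : ∃ m, M = j + m := ⟨M - j, by omega⟩
    rw [sum_range_add]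
    have e2 : ∑ i ∈ range m, (2 * gj r j (j + i) ^ 2 - δ * w (j + i)) * X (j + i) = 0 :=
      sum_eq_zero (fun i _ => by rw [e1 _ (by omega), zero_mul])
    rw [e2, add_zero, ← sum_odd, sum_mul]
    apply sum_le_sum
    intro i hi
    have hij : i < j := mem_range.1 hi
    have e3 : gj r j i = 1 := by
      unfold gj
      rw [Gj_le r (Nat.succ_le_of_lt hij), Gj_le r hij.le]
      push_cast; ring
    have e4 : w i = 2 * i + 1 := by
      rw [hwe, e3, Gj_le r hij.le]; ring
    rw [e3, e4, one_pow, mul_one]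
    have hc : 0 ≤ 2 - δ * (2 * (i : ℝ) + 1) := by
      have : (i : ℝ) + 1 ≤ j := by exact_mod_cast hij
      nlinarith
    exact mul_le_mul_of_nonneg_left (hX i (by omega)).2 hc
  have hr0 : 0 < r := by linarith
  have hGM : Gj r j M = (j : ℝ) * r ^ (M - j) := Gj_ge r hjM
  have hG2 : 0 < Gj r j M := by
    rw [hGM]; positivity
  have h5 : e * Gj r j M ^ 2 ≤ (2 * j - δ * (j : ℝ) ^ 2) * Λ + (M + C₀) * Gj r j M ^ 2 := by
    have e1 : ∑ i ∈ range M, (2 * gj r j i ^ 2 - δ * w i) * X i
        = 2 * ∑ i ∈ range M, gj r j i ^ 2 * X i - δ * ∑ i ∈ range M, w i * X i := by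
      rw [mul_sum, mul_sum, ← sum_sub_distrib]
      apply sum_congr rfl
      intro i _; ring
    rw [e1] at hXterm
    have e2 : ∑ i ∈ range M, ∑ a ∈ (range M).erase i, 2 * (gj r j i * gj r j a * D i a)
        = 2 * ∑ i ∈ range M, ∑ a ∈ (range M).erase i, gj r j i * gj r j a * D i a := by
      rw [mul_sum]
      apply sum_congr rfl
      intro i _
      rw [mul_sum]
    rw [e2] at hDterm
    linarith
  have h6 : (j : ℝ) ^ 2 / Gj r j M ^ 2 = qr δ ^ (M - j) := by
    have e2 : ((2 - δ) / (2 + δ)) = r⁻¹ := by rw [hr, inv_div]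
    unfold qr
    rw [hGM, e2, mul_pow, ← pow_mul, ← pow_mul, inv_pow, mul_comm 2 (M - j)]
    field_simp
  have hG2' : 0 < Gj r j M ^ 2 := by positivity
  rw [← h6]
  have h7 : e ≤ ((2 * j - δ * (j : ℝ) ^ 2) * Λ + (M + C₀) * Gj r j M ^ 2) / Gj r j M ^ 2 := by
    rw [le_div_iff₀ hG2']; exact h5
  calc e ≤ ((2 * j - δ * (j : ℝ) ^ 2) * Λ + (M + C₀) * Gj r j M ^ 2) / Gj r j M ^ 2 := h7
    _ = (2 / j - δ) * ((j : ℝ) ^ 2 / Gj r j M ^ 2) * Λ + (M + C₀) := by
        field_simp

end Pool.Agent.Helper29.LT
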